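import Pool.Agent.helper62.MS.SpecA

/-!
Row OI2 of the project MS (Pool/Agent/helper62/MS/SpecA.lean): two integrations by parts.
-/

set_option autoImplicit false

open Set MeasureTheory

namespace Pool.Agent.MS

theorem OI2_aux (a : ℝ → ℂ) (θ : ℝ → ℝ) (A B m M L : ℝ) (hAB : A ≤ B) (ha : ContDiff ℝ 2 a) (hθ : ContDiff ℝ 3 θ)
    (haA : a A = 0) (haB : a B = 0) (hdA : deriv a A = 0) (hdB : deriv a B = 0) (hm : 0 < m) (hL : 0 ≤ L)
    (h1 : ∀ x ∈ Icc A B, m ≤ |deriv θ x|) (h2 : ∀ x ∈ Icc A B, |iteratedDeriv 2 θ x| ≤ L * m)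
    (h3 : ∀ x ∈ Icc A B, |iteratedDeriv 3 θ x| ≤ L * m)
    (k0 : ∀ x ∈ Icc A B, ‖a x‖ ≤ M) (k1 : ∀ x ∈ Icc A B, ‖deriv a x‖ ≤ M)
    (k2 : ∀ x ∈ Icc A B, ‖iteratedDeriv 2 a x‖ ≤ M) :
    ‖∫ x in A..B, a x * Complex.exp ((θ x : ℂ) * Complex.I)‖ ≤ 4 * (B - A) * M * (1 + L) ^ 2 / m ^ 2 := by
  -- derivatives
  have hM : 0 ≤ M := le_trans (norm_nonneg _) (k0 A ⟨le_rfl, hAB⟩)
  have ha0 : ∀ x, HasDerivAt a (deriv a x) x := fun x => (ha.differentiable (by norm_num) x).hasDerivAt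
  have hda : ContDiff ℝ 1 (deriv a) := by
    have : ContDiff ℝ (1 + 1) a := by norm_num; exact ha
    exact (contDiff_succ_iff_deriv.1 this).2.2
  have ha1 : ∀ x, HasDerivAt (deriv a) (iteratedDeriv 2 a x) x := by
    intro x
    have e : iteratedDeriv 2 a x = deriv (deriv a) x := by
      rw [iteratedDeriv_succ, iteratedDeriv_one]
    rw [e]
    exact (hda.differentiable (by norm_num) x).hasDerivAt
  have hp : ContDiff ℝ 2 (deriv θ) := by
    have : ContDiff ℝ (2 + 1) θ := by norm_num; exact hθ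
    exact (contDiff_succ_iff_deriv.1 this).2.2
  have hq : ContDiff ℝ 1 (deriv (deriv θ)) := by
    have : ContDiff ℝ (1 + 1) (deriv θ) := by norm_num; exact hp
    exact (contDiff_succ_iff_deriv.1 this).2.2
  have e2 : iteratedDeriv 2 θ = deriv (deriv θ) := by
    rw [iteratedDeriv_succ, iteratedDeriv_one]
  have e3 : iteratedDeriv 3 θ = deriv (deriv (deriv θ)) := by
    rw [iteratedDeriv_succ, e2]
  rw [e2] at h2
  rw [e3] at h3
  have t0 : ∀ x, HasDerivAt θ (deriv θ x) x := fun x => (hθ.differentiable (by norm_num) x).hasDerivAt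
  have t1 : ∀ x, HasDerivAt (deriv θ) (deriv (deriv θ) x) x := fun x => (hp.differentiable (by norm_num) x).hasDerivAt
  have t2 : ∀ x, HasDerivAt (deriv (deriv θ)) (deriv (deriv (deriv θ)) x) x :=
    fun x => (hq.differentiable (by norm_num) x).hasDerivAt
  set p : ℝ → ℝ := deriv θ with hpd
  set q : ℝ → ℝ := deriv p with hqd
  set s : ℝ → ℝ := deriv q with hsd
  have cp : Continuous p := hp.continuous
  have cq : Continuous q := hq.continuous
  have cs : Continuous s := hq.continuous_deriv (le_refl _)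
  have ca : Continuous a := ha.continuous
  have ca1 : Continuous (deriv a) := hda.continuous
  have ca2 : Continuous (iteratedDeriv 2 a) := ha.continuous_iteratedDeriv 2 (by norm_num)
  have cθ : Continuous θ := hθ.continuous
  have T0 : ∀ x, HasDerivAt (fun y => ((θ y : ℝ) : ℂ)) ((p x : ℝ) : ℂ) x := fun x => (t0 x).ofReal_comp
  have T1 : ∀ x, HasDerivAt (fun y => ((p y : ℝ) : ℂ)) ((q x : ℝ) : ℂ) x := fun x => (t1 x).ofReal_comp
  have T2 : ∀ x, HasDerivAt (fun y => ((q y : ℝ) : ℂ)) ((s x : ℝ) : ℂ) x := fun x => (t2 x).ofReal_comp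
  have hpne : ∀ x ∈ Icc A B, ((p x : ℝ) : ℂ) ≠ 0 := by
    intro x hx h
    have h' : p x = 0 := by exact_mod_cast h
    have := h1 x hx
    rw [h', abs_zero] at this
    linarith
  have TE : ∀ x, HasDerivAt (fun y => Complex.exp (((θ y : ℝ) : ℂ) * Complex.I))
      (Complex.exp (((θ x : ℝ) : ℂ) * Complex.I) * (((p x : ℝ) : ℂ) * Complex.I)) x := by
    intro x
    exact ((T0 x).mul_const Complex.I).cexp
  -- the error term
  set w' : ℝ → ℂ := fun x => iteratedDeriv 2 a x / ((p x : ℝ) : ℂ) ^ 2 - 3 * deriv a x * ((q x : ℝ) : ℂ) / ((p x : ℝ) : ℂ) ^ 3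
    - a x * ((s x : ℝ) : ℂ) / ((p x : ℝ) : ℂ) ^ 3 + 3 * a x * ((q x : ℝ) : ℂ) ^ 2 / ((p x : ℝ) : ℂ) ^ 4 with hw'
  set G : ℝ → ℂ := fun x => (a x / (Complex.I * ((p x : ℝ) : ℂ)) + (deriv a x / ((p x : ℝ) : ℂ) ^ 2 -
    a x * ((q x : ℝ) : ℂ) / ((p x : ℝ) : ℂ) ^ 3)) * Complex.exp (((θ x : ℝ) : ℂ) * Complex.I) with hG
  have hGd : ∀ x ∈ Icc A B, HasDerivAt G ((a x + w' x) * Complex.exp (((θ x : ℝ) : ℂ) * Complex.I)) x := by
    intro x hx
    have hne := hpne x hx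
    have d1 : HasDerivAt (fun y => a y / (Complex.I * ((p y : ℝ) : ℂ)))
        ((deriv a x * (Complex.I * ((p x : ℝ) : ℂ)) - a x * (Complex.I * ((q x : ℝ) : ℂ))) / (Complex.I * ((p x : ℝ) : ℂ)) ^ 2) x :=
      (ha0 x).div ((T1 x).const_mul Complex.I) (mul_ne_zero Complex.I_ne_zero hne)
    have d2 : HasDerivAt (fun y => deriv a y / ((p y : ℝ) : ℂ) ^ 2)
        ((iteratedDeriv 2 a x * ((p x : ℝ) : ℂ) ^ 2 - deriv a x * (((2 : ℕ) : ℂ) * ((p x : ℝ) : ℂ) ^ (2 - 1) * ((q x : ℝ) : ℂ))) /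
          (((p x : ℝ) : ℂ) ^ 2) ^ 2) x :=
      (ha1 x).div ((T1 x).pow 2) (pow_ne_zero 2 hne)
    have d3 : HasDerivAt (fun y => a y * ((q y : ℝ) : ℂ) / ((p y : ℝ) : ℂ) ^ 3)
        (((deriv a x * ((q x : ℝ) : ℂ) + a x * ((s x : ℝ) : ℂ)) * ((p x : ℝ) : ℂ) ^ 3 -
          a x * ((q x : ℝ) : ℂ) * (((3 : ℕ) : ℂ) * ((p x : ℝ) : ℂ) ^ (3 - 1) * ((q x : ℝ) : ℂ))) / (((p x : ℝ) : ℂ) ^ 3) ^ 2) x :=
      ((ha0 x).mul (T2 x)).div ((T1 x).pow 3) (pow_ne_zero 3 hne)
    have d := ((d1.add (d2.sub d3)).mul (TE x))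
    refine d.congr_deriv ?_
    simp only [Pi.add_apply, Pi.sub_apply]
    have hI : Complex.I ≠ 0 := Complex.I_ne_zero
    have hI2 : Complex.I ^ 2 = -1 := Complex.I_sq
    simp only [hw']
    generalize Complex.exp (((θ x : ℝ) : ℂ) * Complex.I) = E
    generalize ((p x : ℝ) : ℂ) = P at *
    generalize ((q x : ℝ) : ℂ) = Q at *
    generalize ((s x : ℝ) : ℂ) = S at *
    generalize iteratedDeriv 2 a x = a2 at *
    generalize deriv a x = a1 at *
    generalize a x = a0 at *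
    have e1 : (a1 * (Complex.I * P) - a0 * (Complex.I * Q)) / (Complex.I * P) ^ 2 = (a1 * P - a0 * Q) / (Complex.I * P ^ 2) := by
      field_simp
    have e4 : a0 / (Complex.I * P) * (P * Complex.I) = a0 := by field_simp
    have e5 : (a1 * P - a0 * Q) / (Complex.I * P ^ 2) = -Complex.I * ((a1 * P - a0 * Q) / P ^ 2) := by
      rw [mul_comm Complex.I, ← div_div, div_eq_mul_inv _ Complex.I, Complex.inv_I]; ring
    have key : (a1 * (Complex.I * P) - a0 * (Complex.I * Q)) / (Complex.I * P) ^ 2 +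
        ((a2 * P ^ 2 - a1 * (((2 : ℕ) : ℂ) * P ^ (2 - 1) * Q)) / (P ^ 2) ^ 2 -
          ((a1 * Q + a0 * S) * P ^ 3 - a0 * Q * (((3 : ℕ) : ℂ) * P ^ (3 - 1) * Q)) / (P ^ 3) ^ 2) +
        (a0 / (Complex.I * P) + (a1 / P ^ 2 - a0 * Q / P ^ 3)) * (P * Complex.I) =
        a0 + (a2 / P ^ 2 - 3 * a1 * Q / P ^ 3 - a0 * S / P ^ 3 + 3 * a0 * Q ^ 2 / P ^ 4) := by
      have e6 : (a0 / (Complex.I * P) + (a1 / P ^ 2 - a0 * Q / P ^ 3)) * (P * Complex.I) =
          a0 + (a1 / P ^ 2 - a0 * Q / P ^ 3) * (P * Complex.I) := by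
        rw [add_mul (a0 / (Complex.I * P)), e4]
      rw [e1, e5, e6]
      push_cast
      field_simp
      ring
    rw [← key]
    ring
  have hEc : Continuous fun x : ℝ => Complex.exp (((θ x : ℝ) : ℂ) * Complex.I) := by fun_prop
  have hwc : ContinuousOn w' (Icc A B) := by
    have c2 : ContinuousOn (fun x => ((p x : ℝ) : ℂ)) (Icc A B) := (Complex.continuous_ofReal.comp cp).continuousOn
    have cqc : ContinuousOn (fun x => ((q x : ℝ) : ℂ)) (Icc A B) := (Complex.continuous_ofReal.comp cq).continuousOn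
    have csc : ContinuousOn (fun x => ((s x : ℝ) : ℂ)) (Icc A B) := (Complex.continuous_ofReal.comp cs).continuousOn
    have cac := ca.continuousOn (s := Icc A B)
    have cac1 := ca1.continuousOn (s := Icc A B)
    have cac2 := ca2.continuousOn (s := Icc A B)
    refine ((((cac2.div (c2.pow 2) fun x hx => pow_ne_zero 2 (hpne x hx)).sub
      (((continuousOn_const.mul cac1).mul cqc).div (c2.pow 3) fun x hx => pow_ne_zero 3 (hpne x hx))).sub
      ((cac.mul csc).div (c2.pow 3) fun x hx => pow_ne_zero 3 (hpne x hx))).add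
      (((continuousOn_const.mul cac).mul (cqc.pow 2)).div (c2.pow 4) fun x hx => pow_ne_zero 4 (hpne x hx)))
  have iw : IntervalIntegrable (fun x => w' x * Complex.exp (((θ x : ℝ) : ℂ) * Complex.I)) volume A B := by
    apply ContinuousOn.intervalIntegrable
    rw [uIcc_of_le hAB]
    exact hwc.mul hEc.continuousOn
  have ia : IntervalIntegrable (fun x => a x * Complex.exp (((θ x : ℝ) : ℂ) * Complex.I)) volume A B :=
    (ca.mul hEc).intervalIntegrable _ _
  have hint : ∫ x in A..B, (a x + w' x) * Complex.exp (((θ x : ℝ) : ℂ) * Complex.I) = G B - G A := by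
    apply intervalIntegral.integral_eq_sub_of_hasDerivAt
    · intro x hx
      rw [uIcc_of_le hAB] at hx
      exact hGd x hx
    · have : (fun x => (a x + w' x) * Complex.exp (((θ x : ℝ) : ℂ) * Complex.I)) =
          fun x => a x * Complex.exp (((θ x : ℝ) : ℂ) * Complex.I) + w' x * Complex.exp (((θ x : ℝ) : ℂ) * Complex.I) := by
        funext x; ring
      rw [this]
      exact ia.add iw
  have hG0 : G B - G A = 0 := by
    simp only [hG, haA, haB, hdA, hdB]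
    simp
  have hsum : ∫ x in A..B, (a x + w' x) * Complex.exp (((θ x : ℝ) : ℂ) * Complex.I) =
      (∫ x in A..B, a x * Complex.exp (((θ x : ℝ) : ℂ) * Complex.I)) +
      ∫ x in A..B, w' x * Complex.exp (((θ x : ℝ) : ℂ) * Complex.I) := by
    rw [← intervalIntegral.integral_add ia iw]
    congr 1
    funext x
    ring
  have hfin : ∫ x in A..B, a x * Complex.exp (((θ x : ℝ) : ℂ) * Complex.I) =
      -∫ x in A..B, w' x * Complex.exp (((θ x : ℝ) : ℂ) * Complex.I) := by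
    rw [hint, hG0] at hsum
    exact eq_neg_of_add_eq_zero_left hsum.symm
  rw [hfin, norm_neg]
  have hbd : ∀ x ∈ uIoc A B, ‖w' x * Complex.exp (((θ x : ℝ) : ℂ) * Complex.I)‖ ≤ 4 * M * (1 + L) ^ 2 / m ^ 2 := by
    intro x hx
    rw [uIoc_of_le hAB] at hx
    have hx' : x ∈ Icc A B := ⟨hx.1.le, hx.2⟩
    rw [norm_mul, Complex.norm_exp_ofReal_mul_I, mul_one]
    have hP : m ≤ |p x| := h1 x hx'
    have hQ : |q x| ≤ L * m := h2 x hx'
    have hS : |s x| ≤ L * m := h3 x hx'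
    have hPpos : 0 < |p x| := lt_of_lt_of_le hm hP
    have n1 : ‖iteratedDeriv 2 a x / ((p x : ℝ) : ℂ) ^ 2‖ ≤ M / m ^ 2 := by
      rw [norm_div, norm_pow, Complex.norm_real, Real.norm_eq_abs]
      gcongr
      exact k2 x hx'
    have n2 : ‖3 * deriv a x * ((q x : ℝ) : ℂ) / ((p x : ℝ) : ℂ) ^ 3‖ ≤ 3 * M * (L * m) / m ^ 3 := by
      rw [norm_div, norm_mul, norm_mul, norm_pow, Complex.norm_real, Complex.norm_real, Real.norm_eq_abs, Real.norm_eq_abs,
        Complex.norm_ofNat]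
      gcongr
      exact k1 x hx'
    have n3 : ‖a x * ((s x : ℝ) : ℂ) / ((p x : ℝ) : ℂ) ^ 3‖ ≤ M * (L * m) / m ^ 3 := by
      rw [norm_div, norm_mul, norm_pow, Complex.norm_real, Complex.norm_real, Real.norm_eq_abs, Real.norm_eq_abs]
      gcongr
      exact k0 x hx'
    have n4 : ‖3 * a x * ((q x : ℝ) : ℂ) ^ 2 / ((p x : ℝ) : ℂ) ^ 4‖ ≤ 3 * M * (L * m) ^ 2 / m ^ 4 := by
      rw [norm_div, norm_mul, norm_mul, norm_pow, norm_pow, Complex.norm_real, Complex.norm_real, Real.norm_eq_abs,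
        Real.norm_eq_abs, Complex.norm_ofNat]
      gcongr
      exact k0 x hx'
    have tri : ‖w' x‖ ≤ M / m ^ 2 + 3 * M * (L * m) / m ^ 3 + M * (L * m) / m ^ 3 + 3 * M * (L * m) ^ 2 / m ^ 4 := by
      simp only [hw']
      refine (norm_add_le _ _).trans ?_
      refine add_le_add ((norm_sub_le _ _).trans (add_le_add ((norm_sub_le _ _).trans (add_le_add n1 n2)) n3)) n4
    refine tri.trans ?_
    have e : M / m ^ 2 + 3 * M * (L * m) / m ^ 3 + M * (L * m) / m ^ 3 + 3 * M * (L * m) ^ 2 / m ^ 4 =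
        M * (1 + 4 * L + 3 * L ^ 2) / m ^ 2 := by
      field_simp
      ring
    rw [e]
    apply div_le_div_of_nonneg_right _ (by positivity)
    nlinarith [mul_nonneg hM hL, mul_nonneg hM (sq_nonneg L)]
  have := intervalIntegral.norm_integral_le_of_norm_le_const hbd
  refine this.trans (le_of_eq ?_)
  rw [abs_of_nonneg (by linarith)]
  ring

theorem OI2_proof : OI2_stmt := by
  intro a θ A B m M L hAB ha hθ haA haB hdA hdB hm hL h1 h2 h3 k0 k1 k2
  exact OI2_aux a θ A B m M L hAB ha hθ haA haB hdA hdB hm hL h1 h2 h3 k0 k1 k2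

end Pool.Agent.MS
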